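import Mathlib

/-!
# Topological entropy and algebraic entropy of the dual action: definitions
-/

open Filter Topology

namespace Q195.Bridge

universe u v w

variable {S : Type v} {K : Type u} [CommGroup K] [TopologicalSpace K]

/-- Finite open covers of `K`. -/
structure IsFinOpenCover (𝒰 : Set (Set K)) : Prop where
  finite : 𝒰.Finite
  isOpen : ∀ U ∈ 𝒰, IsOpen U
  cover : ⋃₀ 𝒰 = Set.univ

/-- `N(𝒰_F)`: the least size of a subcover of the cover `𝒰_F` by the sets
`⋂ s ∈ F, γ(s)⁻¹ (c s)` with `c s ∈ 𝒰`. -/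
noncomputable def coverNumber (γ : S → (K →ₜ* K)) (𝒰 : Set (Set K)) (F : Finset S) : ℕ :=
  sInf {n : ℕ | ∃ c : Fin n → S → Set K, (∀ j, ∀ s ∈ F, c j s ∈ 𝒰) ∧
    ∀ k : K, ∃ j, ∀ s ∈ F, γ s k ∈ c j s}

/-- `T_F(X) = ∏_{s ∈ F} X·s` in the (multiplicatively written) group of characters of `K`, where
`χ·s = χ ∘ γ(s)`. -/
def T (γ : S → (K →ₜ* K)) (F : Finset S) (X : Finset (K →ₜ* Circle)) : Set (K →ₜ* Circle) :=
  {ψ | ∃ x : S → (K →ₜ* Circle), (∀ s ∈ F, x s ∈ X) ∧ ψ = ∏ s ∈ F, (x s).comp (γ s)}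

/-- Left Folner nets: nonempty finite sets `F i` with `|s F_i \ F_i| / |F_i| → 0` for all `s`. -/
structure IsLeftFolner [Monoid S] {I : Type w} (l : Filter I) (F : I → Finset S) : Prop where
  nonempty : ∀ i, (F i).Nonempty
  folner : ∀ s : S, Tendsto
    (fun i => (((fun t => s * t) '' (F i : Set S)) \ (F i : Set S)).ncard / ((F i).card : ℝ)) l (𝓝 0)

/-- The topological entropy along `F`, with upper limits. -/
noncomputable def hTopSup {I : Type w} (l : Filter I) (F : I → Finset S)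
    (γ : S → (K →ₜ* K)) : EReal :=
  ⨆ (𝒰 : Set (Set K)) (_ : IsFinOpenCover 𝒰),
    limsup (fun i => ((Real.log (coverNumber γ 𝒰 (F i)) / (F i).card : ℝ) : EReal)) l

/-- The topological entropy along `F`, with lower limits. -/
noncomputable def hTopInf {I : Type w} (l : Filter I) (F : I → Finset S)
    (γ : S → (K →ₜ* K)) : EReal :=
  ⨆ (𝒰 : Set (Set K)) (_ : IsFinOpenCover 𝒰),
    liminf (fun i => ((Real.log (coverNumber γ 𝒰 (F i)) / (F i).card : ℝ) : EReal)) l

/-- The algebraic entropy of the dual action along `F`, with upper limits. -/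
noncomputable def hAlgSup {I : Type w} (l : Filter I) (F : I → Finset S)
    (γ : S → (K →ₜ* K)) : EReal :=
  ⨆ (X : Finset (K →ₜ* Circle)) (_ : X.Nonempty),
    limsup (fun i => ((Real.log (T γ (F i) X).ncard / (F i).card : ℝ) : EReal)) l

/-- The algebraic entropy of the dual action along `F`, with lower limits. -/
noncomputable def hAlgInf {I : Type w} (l : Filter I) (F : I → Finset S)
    (γ : S → (K →ₜ* K)) : EReal :=
  ⨆ (X : Finset (K →ₜ* Circle)) (_ : X.Nonempty),
    liminf (fun i => ((Real.log (T γ (F i) X).ncard / (F i).card : ℝ) : EReal)) l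

end Q195.Bridge
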