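import Pool.Agent.Q195.Bridge.Tools

/-!
# Algebraic entropy is at most topological entropy
-/

open Filter Topology MeasureTheory

namespace Q195.Bridge

variable {S : Type*} {K : Type*} [CommGroup K] [TopologicalSpace K] [IsTopologicalGroup K]
  [CompactSpace K]

/-- Fourier coefficients are bounded by the sup norm. -/
theorem coef_bound [T2Space K] (P : Finset (K →ₜ* Circle)) (g : (K →ₜ* Circle) → ℂ) {b : ℝ}
    (hb : ∀ k, ‖∑ ψ ∈ P, g ψ * e ψ k‖ ≤ b) {ψ₀ : K →ₜ* Circle} (hψ : ψ₀ ∈ P) : ‖g ψ₀‖ ≤ b := by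
  classical
  letI : MeasurableSpace K := borel K
  have : BorelSpace K := ⟨rfl⟩
  set μ : Measure K := Measure.haarMeasure ⊤ with hμ
  have hμ1 : μ Set.univ = 1 := by
    have := Measure.haarMeasure_self (K₀ := (⊤ : TopologicalSpace.PositiveCompacts K))
    simpa using this
  have hprob : IsProbabilityMeasure μ := ⟨hμ1⟩
  have hint : ∀ {h : K → ℂ}, Continuous h → Integrable h μ := fun {h} hh =>
    hh.integrable_of_hasCompactSupport (HasCompactSupport.of_compactSpace _)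
  have hzero : ∀ χ : K →ₜ* Circle, χ ≠ 1 → ∫ k, e χ k ∂μ = 0 := by
    intro χ hχ
    obtain ⟨a, ha⟩ : ∃ a, χ a ≠ 1 := by
      by_contra hcon
      push Not at hcon
      exact hχ (by ext a; simp [hcon a])
    have h1 : ∫ k, e χ (a * k) ∂μ = ∫ k, e χ k ∂μ := integral_mul_left_eq_self _ a
    simp only [e_mul'] at h1
    rw [integral_const_mul] at h1
    have h2 : e χ a ≠ 1 := by
      intro h
      apply ha
      unfold e at h
      exact Circle.ext (by simpa using h)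
    have h3 : (e χ a - 1) * ∫ k, e χ k ∂μ = 0 := by linear_combination h1
    rcases mul_eq_zero.1 h3 with h4 | h4
    · exact absurd (sub_eq_zero.1 h4) h2
    · exact h4
  have hcoef : ∫ k, (∑ ψ ∈ P, g ψ * e ψ k) * e ψ₀⁻¹ k ∂μ = g ψ₀ := by
    have e1 : ∀ k, (∑ ψ ∈ P, g ψ * e ψ k) * e ψ₀⁻¹ k = ∑ ψ ∈ P, g ψ * e (ψ * ψ₀⁻¹) k := by
      intro k
      rw [Finset.sum_mul]
      refine Finset.sum_congr rfl fun ψ _ => ?_
      rw [e_mul]; ring
    simp only [e1]
    rw [integral_finsetSum _ fun ψ _ => (hint (e_continuous _)).const_mul _]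
    rw [Finset.sum_eq_single ψ₀]
    · rw [integral_const_mul, mul_inv_cancel]
      have : (fun k : K => e (1 : K →ₜ* Circle) k) = fun _ => 1 := funext fun k => e_one k
      rw [this]
      simp [hμ1, Measure.real]
    · intro ψ _ hne
      rw [integral_const_mul, hzero _ (by
        intro h
        exact hne (mul_inv_eq_one.1 h)), mul_zero]
    · intro h; exact absurd hψ h
  rw [← hcoef]
  have := norm_integral_le_of_norm_le_const (μ := μ) (C := b)
    (f := fun k => (∑ ψ ∈ P, g ψ * e ψ k) * e ψ₀⁻¹ k) (Eventually.of_forall fun k => by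
      rw [norm_mul, norm_e, mul_one]; exact hb k)
  simpa [Measure.real, hμ1] using this

theorem coverNumber_mem {γ : S → (K →ₜ* K)} {𝒰 : Set (Set K)} {F : Finset S} {J : Type*}
    [Fintype J] (c : J → S → Set K) (h1 : ∀ j, ∀ s ∈ F, c j s ∈ 𝒰)
    (h2 : ∀ k : K, ∃ j, ∀ s ∈ F, γ s k ∈ c j s) :
    Fintype.card J ∈ {n : ℕ | ∃ c : Fin n → S → Set K, (∀ j, ∀ s ∈ F, c j s ∈ 𝒰) ∧
    ∀ k : K, ∃ j, ∀ s ∈ F, γ s k ∈ c j s} := by
  set eq := Fintype.equivFin J
  refine ⟨fun j => c (eq.symm j), fun j s hs => h1 _ s hs, fun k => ?_⟩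
  obtain ⟨j, hj⟩ := h2 k
  exact ⟨eq j, fun s hs => by simpa using hj s hs⟩

theorem coverNumber_le {γ : S → (K →ₜ* K)} {𝒰 : Set (Set K)} {F : Finset S} {J : Type*}
    [Fintype J] (c : J → S → Set K) (h1 : ∀ j, ∀ s ∈ F, c j s ∈ 𝒰)
    (h2 : ∀ k : K, ∃ j, ∀ s ∈ F, γ s k ∈ c j s) : coverNumber γ 𝒰 F ≤ Fintype.card J :=
  Nat.sInf_le (coverNumber_mem c h1 h2)

theorem coverNumber_spec (γ : S → (K →ₜ* K)) {𝒰 : Set (Set K)} (hU : IsFinOpenCover 𝒰)
    (F : Finset S) : ∃ c : Fin (coverNumber γ 𝒰 F) → S → Set K, (∀ j, ∀ s ∈ F, c j s ∈ 𝒰) ∧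
      ∀ k : K, ∃ j, ∀ s ∈ F, γ s k ∈ c j s := by
  classical
  have : Fintype 𝒰 := hU.finite.fintype
  have hne : {n : ℕ | ∃ c : Fin n → S → Set K, (∀ j, ∀ s ∈ F, c j s ∈ 𝒰) ∧
      ∀ k : K, ∃ j, ∀ s ∈ F, γ s k ∈ c j s}.Nonempty := by
    refine ⟨_, coverNumber_mem (J := (F → 𝒰)) (fun j s => if hs : s ∈ F then (j ⟨s, hs⟩ : Set K)
      else ∅) ?_ ?_⟩
    · intro j s hs
      simp only [hs, dif_pos]
      exact (j ⟨s, hs⟩).2
    · intro k
      have hk : ∀ s : F, ∃ U : 𝒰, γ s k ∈ (U : Set K) := by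
        intro s
        have : γ s k ∈ ⋃₀ 𝒰 := by rw [hU.cover]; trivial
        obtain ⟨U, hU1, hU2⟩ := this
        exact ⟨⟨U, hU1⟩, hU2⟩
      choose j hj using hk
      refine ⟨j, fun s hs => ?_⟩
      simp only [hs, dif_pos]
      exact hj ⟨s, hs⟩
  exact Nat.sInf_mem hne

theorem T_eq (γ : S → (K →ₜ* K)) (F : Finset S) {X : Finset (K →ₜ* Circle)}
    (hX : X.Nonempty) : T γ F X =
      Set.range fun x : F → X => ∏ s : F, ((x s : K →ₜ* Circle)).comp (γ s) := by
  classical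
  obtain ⟨χ₀, hχ₀⟩ := hX
  ext ψ
  constructor
  · rintro ⟨x, hx, rfl⟩
    refine ⟨fun s => ⟨x s, hx s s.2⟩, ?_⟩
    simp only
    rw [← Finset.prod_coe_sort F fun s => (x s).comp (γ s)]
  · rintro ⟨x, rfl⟩
    refine ⟨fun s => if hs : s ∈ F then (x ⟨s, hs⟩ : K →ₜ* Circle) else χ₀, ?_, ?_⟩
    · intro s hs
      simp only [hs, dif_pos]
      exact (x ⟨s, hs⟩).2
    · rw [← Finset.prod_coe_sort F fun s =>
        (if hs : s ∈ F then (x ⟨s, hs⟩ : K →ₜ* Circle) else χ₀).comp (γ s)]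
      refine Finset.prod_congr rfl fun s _ => ?_
      simp

/-- First half. -/
theorem partA [T2Space K] (γ : S → (K →ₜ* K)) {X : Finset (K →ₜ* Circle)} (hX : X.Nonempty)
    {c : ℝ} (hc : 0 < c) : ∃ 𝒰 : Set (Set K), IsFinOpenCover 𝒰 ∧ ∀ F : Finset S, F.Nonempty →
      ((T γ F X).ncard : ℝ) ≤ coverNumber γ 𝒰 F * Real.exp (c * F.card) := by
  classical
  have hX0 : (0 : ℝ) < X.card := by exact_mod_cast hX.card_pos
  obtain ⟨δ, d0, d1, d2⟩ := exists_delta (A := (X.card : ℝ)) hc hX0.le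
  set q : ℝ := 1 / (4 * X.card) with hq
  have hq0 : 0 < q := by positivity
  have hX1 : (1 : ℝ) ≤ X.card := by exact_mod_cast hX.card_pos
  have hq1 : q < 1 := by
    rw [hq, div_lt_one (by positivity)]; linarith
  set ε : ℝ := q ^ (1 / δ) with hε
  have hε0 : 0 < ε := Real.rpow_pos_of_pos hq0 _
  have hε1 : ε < 1 := Real.rpow_lt_one hq0.le hq1 (by positivity)
  have hεm : ∀ (m r : ℕ), δ * m < r → ε ^ r ≤ q ^ m := by
    intro m r hr
    rw [← Real.rpow_natCast ε r, ← Real.rpow_natCast q m]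
    refine (Real.rpow_le_rpow_of_exponent_ge hε0 hε1.le hr.le).trans (le_of_eq ?_)
    rw [hε, ← Real.rpow_mul hq0.le]
    congr 1
    field_simp
  -- the cover
  set V : K → Set K := fun k₀ => {k | ∀ χ ∈ X, ‖e χ k - e χ k₀‖ < ε / 2} with hV
  have hVo : ∀ k₀, IsOpen (V k₀) := by
    intro k₀
    have : V k₀ = ⋂ χ ∈ X, {k | ‖e χ k - e χ k₀‖ < ε / 2} := by
      ext k; simp [hV]
    rw [this]
    refine isOpen_biInter_finset fun χ _ => ?_
    exact isOpen_lt (((e_continuous χ).sub continuous_const).norm) continuous_const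
  obtain ⟨t, ht⟩ := isCompact_univ.elim_finite_subcover V hVo (by
    intro k _
    rw [Set.mem_iUnion]
    exact ⟨k, fun χ _ => by simp; positivity⟩)
  refine ⟨V '' (t : Set K), ⟨t.finite_toSet.image V, ?_, ?_⟩, ?_⟩
  · rintro _ ⟨k, _, rfl⟩; exact hVo k
  · rw [Set.eq_univ_iff_forall]
    intro k
    have := ht (Set.mem_univ k)
    simp only [Set.mem_iUnion] at this
    obtain ⟨k₀, hk₀, hk⟩ := this
    exact ⟨V k₀, ⟨k₀, hk₀, rfl⟩, hk⟩
  intro F hF
  set 𝒰 : Set (Set K) := V '' (t : Set K) with h𝒰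
  have hU : IsFinOpenCover 𝒰 := by
    refine ⟨t.finite_toSet.image V, ?_, ?_⟩
    · rintro _ ⟨k, _, rfl⟩; exact hVo k
    · rw [Set.eq_univ_iff_forall]
      intro k
      have := ht (Set.mem_univ k)
      simp only [Set.mem_iUnion] at this
      obtain ⟨k₀, hk₀, hk⟩ := this
      exact ⟨V k₀, ⟨k₀, hk₀, rfl⟩, hk⟩
  have hvar : ∀ U ∈ 𝒰, ∀ k ∈ U, ∀ k' ∈ U, ∀ χ ∈ X, ‖e χ k - e χ k'‖ < ε := by
    rintro _ ⟨k₀, _, rfl⟩ k hk k' hk' χ hχ
    have h1 := hk χ hχ
    have h2 := hk' χ hχ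
    calc ‖e χ k - e χ k'‖ = ‖(e χ k - e χ k₀) - (e χ k' - e χ k₀)‖ := by congr 1; ring
      _ ≤ ‖e χ k - e χ k₀‖ + ‖e χ k' - e χ k₀‖ := norm_sub_le _ _
      _ < ε := by linarith
  set n := coverNumber γ 𝒰 F with hn
  obtain ⟨cc, c1, c2⟩ := coverNumber_spec γ hU F
  choose jj hjj using c2
  set kk : Fin n → K := fun j => if h : ∃ k, jj k = j then h.choose else 1 with hkk
  have hkk' : ∀ k, jj (kk (jj k)) = jj k := by
    intro k
    have h : ∃ k', jj k' = jj k := ⟨k, rfl⟩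
    simp only [hkk, h, dif_pos]
    exact h.choose_spec
  have hclose : ∀ k, ∀ s ∈ F, ∀ χ ∈ X, ‖e χ (γ s k) - e χ (γ s (kk (jj k)))‖ < ε := by
    intro k s hs χ hχ
    refine hvar _ (c1 (jj k) s hs) _ (hjj k s hs) _ ?_ χ hχ
    have := hjj (kk (jj k)) s hs
    rwa [hkk'] at this
  set m := F.card with hm
  -- the approximating functions
  set YY := {y : F → Option X // ((Finset.univ.filter fun i => (y i).isSome).card : ℝ) ≤
    δ * Fintype.card F} with hYY
  have hFc : Fintype.card F = m := Fintype.card_coe F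
  let u : Fin n × YY → K → ℂ := fun p k => if jj k = p.1 then
    ∏ s : F, (match p.2.1 s with
      | none => 1
      | some χ => e χ (γ s k) * (starRingEnd ℂ) (e χ (γ s (kk p.1))) - 1) else 0
  set P : Finset (K →ₜ* Circle) := Finset.univ.image
    fun x : F → X => ∏ s : F, ((x s : K →ₜ* Circle)).comp (γ s) with hP
  have hTP : T γ F X = ↑P := by
    rw [T_eq γ F hX, hP]
    simp
  have hPcard : (P.card : ℝ) ≤ (X.card : ℝ) ^ m := by
    have : P.card ≤ Fintype.card (F → X) := Finset.card_image_le.trans (by simp)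
    rw [Fintype.card_fun, Fintype.card_coe, hFc] at this
    exact_mod_cast this
  have hrep : ∀ ψ : P, ∃ x : F → X, (ψ : K →ₜ* Circle) =
      ∏ s : F, ((x s : K →ₜ* Circle)).comp (γ s) := by
    rintro ⟨ψ, hψ⟩
    obtain ⟨x, _, hx⟩ := Finset.mem_image.1 hψ
    exact ⟨x, hx.symm⟩
  choose x hx using hrep
  -- index of the approximating function
  let yy : (F → X) → Finset F → F → Option X := fun x R s => if s ∈ R then some (x s) else none
  have hyy : ∀ x R, (Finset.univ.filter fun i => (yy x R i).isSome) = R := by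
    intro x R
    ext s
    simp only [yy, Finset.mem_filter, Finset.mem_univ, true_and]
    by_cases h : s ∈ R <;> simp [h]
  set Rs : Finset (Finset F) := Finset.univ.filter fun R => (R.card : ℝ) ≤ δ * Fintype.card F
    with hRs
  let w : P → K → ℂ := fun ψ => ∑ j : Fin n, e ψ.1 (kk j) •
    ∑ R ∈ Rs.attach, u (j, ⟨yy (x ψ) R.1, by
      rw [hyy]; exact (Finset.mem_filter.1 R.2).2⟩)
  have hw : ∀ ψ, w ψ ∈ Submodule.span ℂ (Set.range u) := by
    intro ψ
    refine Submodule.sum_mem _ fun j _ => Submodule.smul_mem _ _ (Submodule.sum_mem _ fun R _ => ?_)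
    exact Submodule.subset_span ⟨_, rfl⟩
  have hwe : ∀ (ψ : P) (k : K), ‖e ψ.1 k - w ψ k‖ ≤ (2 * q) ^ m := by
    intro ψ k
    set j := jj k with hj
    set z : F → ℂ := fun s => e (x ψ s : K →ₜ* Circle) (γ s k) *
      (starRingEnd ℂ) (e (x ψ s : K →ₜ* Circle) (γ s (kk j))) - 1 with hz
    have hw1 : w ψ k = e ψ.1 (kk j) * ∑ R ∈ Rs, ∏ s ∈ R, z s := by
      simp only [w, Finset.sum_apply, Pi.smul_apply, smul_eq_mul]
      rw [Finset.sum_eq_single j]
      · congr 1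
        rw [← Finset.sum_attach Rs]
        refine Finset.sum_congr rfl fun R _ => ?_
        simp only [u]
        rw [if_pos rfl]
        rw [← Finset.prod_subset (Finset.subset_univ R.1)]
        · refine Finset.prod_congr rfl fun s hs => ?_
          simp only [yy, hs, if_true, hz]
        · intro s _ hs
          simp only [yy, hs, if_false]
      · intro j' _ hj'
        rw [Finset.sum_eq_zero, mul_zero]
        intro R _
        simp only [u]
        rw [if_neg (fun h => hj' (by rw [hj]; exact h.symm))]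
      · intro h; exact absurd (Finset.mem_univ j) h
    have he1 : e ψ.1 k = e ψ.1 (kk j) * ∑ R : Finset F, ∏ s ∈ R, z s := by
      have h1 : ∏ s : F, (1 + z s) = ∑ R : Finset F, ∏ s ∈ R, z s := by
        rw [Finset.prod_one_add, Finset.powerset_univ]
      rw [← h1, hx ψ, e_prod, e_prod, ← Finset.prod_mul_distrib]
      refine Finset.prod_congr rfl fun s _ => ?_
      simp only [hz]
      have h2 : e ((x ψ s : K →ₜ* Circle).comp (γ s)) k = e (x ψ s : K →ₜ* Circle) (γ s k) := rfl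
      have h3 : e ((x ψ s : K →ₜ* Circle).comp (γ s)) (kk j) =
        e (x ψ s : K →ₜ* Circle) (γ s (kk j)) := rfl
      rw [h2, h3]
      have h4 := norm_e (x ψ s : K →ₜ* Circle) (γ s (kk j))
      have h5 : e (x ψ s : K →ₜ* Circle) (γ s (kk j)) *
          (starRingEnd ℂ) (e (x ψ s : K →ₜ* Circle) (γ s (kk j))) = 1 := by
        rw [Complex.mul_conj, Complex.normSq_eq_norm_sq, h4]; simp
      linear_combination (-(e (x ψ s : K →ₜ* Circle) (γ s k))) * h5
    have hz1 : ∀ s, ‖z s‖ ≤ ε := by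
      intro s
      have h4 := norm_e (x ψ s : K →ₜ* Circle) (γ s (kk j))
      have h5 : e (x ψ s : K →ₜ* Circle) (γ s (kk j)) *
          (starRingEnd ℂ) (e (x ψ s : K →ₜ* Circle) (γ s (kk j))) = 1 := by
        rw [Complex.mul_conj, Complex.normSq_eq_norm_sq, h4]; simp
      have h6 : z s = (e (x ψ s : K →ₜ* Circle) (γ s k) -
          e (x ψ s : K →ₜ* Circle) (γ s (kk j))) *
          (starRingEnd ℂ) (e (x ψ s : K →ₜ* Circle) (γ s (kk j))) := by
        simp only [hz]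
        linear_combination h5
      rw [h6, norm_mul, RCLike.norm_conj, h4, mul_one]
      exact (hclose k s s.2 _ (x ψ s).2).le
    have hdiff : e ψ.1 k - w ψ k = e ψ.1 (kk j) *
        ∑ R ∈ Finset.univ.filter (fun R : Finset F => ¬ ((R.card : ℝ) ≤ δ * Fintype.card F)),
          ∏ s ∈ R, z s := by
      rw [he1, hw1, ← mul_sub, ← Finset.sum_filter_add_sum_filter_not Finset.univ
        (fun R : Finset F => (R.card : ℝ) ≤ δ * Fintype.card F)]
      rw [← hRs, add_sub_cancel_left]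
    rw [hdiff, norm_mul, norm_e, one_mul]
    refine (norm_sum_le _ _).trans ?_
    have hb : ∀ R ∈ Finset.univ.filter (fun R : Finset F =>
        ¬ ((R.card : ℝ) ≤ δ * Fintype.card F)), ‖∏ s ∈ R, z s‖ ≤ q ^ m := by
      intro R hR
      have h1 := (Finset.mem_filter.1 hR).2
      push Not at h1
      rw [norm_prod]
      refine (Finset.prod_le_prod (fun s _ => norm_nonneg _) fun s _ => hz1 s).trans ?_
      rw [Finset.prod_const]
      refine hεm m R.card ?_
      rwa [hFc] at h1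
    refine (Finset.sum_le_sum hb).trans ?_
    rw [Finset.sum_const, nsmul_eq_mul, mul_pow]
    refine mul_le_mul_of_nonneg_right ?_ (by positivity)
    have h2 : (Finset.univ.filter (fun R : Finset F =>
        ¬ ((R.card : ℝ) ≤ δ * Fintype.card F))).card ≤ 2 ^ m := by
      refine (Finset.card_filter_le _ _).trans ?_
      rw [Finset.card_univ, Fintype.card_finset, hFc]
    exact_mod_cast h2
  -- the dimension count
  have hcount := count (ι := F) (α := X) d0 d1
  rw [hTP, Set.ncard_coe_finset]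
  by_contra hcon
  push Not at hcon
  have : Fintype YY := Fintype.ofFinite YY
  have hYc : (Fintype.card YY : ℝ) ≤ Real.exp (c * m) := by
    rw [← Nat.card_eq_fintype_card]
    refine hcount.trans (Real.exp_le_exp.2 ?_)
    rw [hFc, Fintype.card_coe, mul_comm c]
    exact mul_le_mul_of_nonneg_left d2 (Nat.cast_nonneg _)
  have hJ : Fintype.card (Fin n × YY) < Fintype.card P := by
    have h1 : ((Fintype.card (Fin n × YY) : ℕ) : ℝ) < P.card := by
      rw [Fintype.card_prod, Fintype.card_fin]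
      push_cast
      exact lt_of_le_of_lt (mul_le_mul_of_nonneg_left hYc (Nat.cast_nonneg _)) hcon
    rw [Fintype.card_coe]
    exact_mod_cast h1
  obtain ⟨g, hg1, ψ₁, hg2⟩ := exists_rel u w hw hJ
  obtain ⟨ψ₀, -, hψ₀⟩ := Finset.exists_max_image Finset.univ (fun ψ : P => ‖g ψ‖)
    ⟨ψ₁, Finset.mem_univ _⟩
  have hGpos : 0 < ‖g ψ₀‖ := lt_of_lt_of_le (norm_pos_iff.2 hg2) (hψ₀ ψ₁ (Finset.mem_univ _))
  set g' : (K →ₜ* Circle) → ℂ := fun ψ => if h : ψ ∈ P then g ⟨ψ, h⟩ else 0 with hg'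
  have hsum : ∀ k, ∑ ψ ∈ P, g' ψ * e ψ k = ∑ ψ : P, g ψ * (e ψ.1 k - w ψ k) := by
    intro k
    have h1 : ∑ ψ : P, g ψ * w ψ k = 0 := by
      have := congrFun hg1 k
      simpa using this
    rw [← Finset.sum_coe_sort P (fun ψ => g' ψ * e ψ k)]
    simp only [mul_sub, Finset.sum_sub_distrib, h1, sub_zero]
    refine Finset.sum_congr rfl fun ψ _ => ?_
    simp [hg']
  have hbound : ∀ k, ‖∑ ψ ∈ P, g' ψ * e ψ k‖ ≤ ‖g ψ₀‖ / 2 := by
    intro k
    rw [hsum]
    refine (norm_sum_le _ _).trans ?_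
    have h1 : ∀ ψ : P, ‖g ψ * (e ψ.1 k - w ψ k)‖ ≤ ‖g ψ₀‖ * (2 * q) ^ m := by
      intro ψ
      rw [norm_mul]
      exact mul_le_mul (hψ₀ ψ (Finset.mem_univ _)) (hwe ψ k) (norm_nonneg _) (norm_nonneg _)
    refine (Finset.sum_le_sum fun ψ _ => h1 ψ).trans ?_
    rw [Finset.sum_const, nsmul_eq_mul, Finset.card_univ, Fintype.card_coe]
    have h2 : (P.card : ℝ) * (‖g ψ₀‖ * (2 * q) ^ m) ≤
        (X.card : ℝ) ^ m * (‖g ψ₀‖ * (2 * q) ^ m) :=
      mul_le_mul_of_nonneg_right hPcard (by positivity)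
    refine h2.trans ?_
    have h3 : (X.card : ℝ) ^ m * (‖g ψ₀‖ * (2 * q) ^ m) = ‖g ψ₀‖ * (1 / 2) ^ m := by
      have : (X.card : ℝ) * (2 * q) = 1 / 2 := by
        rw [hq]; field_simp; norm_num
      calc (X.card : ℝ) ^ m * (‖g ψ₀‖ * (2 * q) ^ m)
          = ‖g ψ₀‖ * ((X.card : ℝ) ^ m * (2 * q) ^ m) := by ring
        _ = ‖g ψ₀‖ * (1 / 2) ^ m := by rw [← mul_pow, this]
    rw [h3]
    have h4 : (1 / 2 : ℝ) ^ m ≤ 1 / 2 := by
      have hm1 : 1 ≤ m := hF.card_pos
      calc (1 / 2 : ℝ) ^ m ≤ (1 / 2) ^ 1 :=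
            pow_le_pow_of_le_one (by norm_num) (by norm_num) hm1
        _ = 1 / 2 := pow_one _
    nlinarith
  have h5 := coef_bound P g' hbound ψ₀.2
  have h6 : g' ψ₀.1 = g ψ₀ := by simp [hg']
  rw [h6] at h5
  linarith

end Q195.Bridge
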