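import Pool.Agent.Q195.Bridge.Upper

/-!
# The Bridge Theorem
-/

open Filter Topology

namespace Q195.Bridge

universe u v w

theorem limsup_transfer {I : Type w} (l : Filter I) {α β : Type*} {P : α → Prop} {Q : β → Prop}
    (f : α → I → ℝ) (g : β → I → ℝ)
    (h : ∀ b, Q b → ∀ c : ℝ, 0 < c → ∃ a, P a ∧ ∀ i, g b i ≤ f a i + c) :
    (⨆ b, ⨆ (_ : Q b), limsup (fun i => ((g b i : ℝ) : EReal)) l) ≤
      ⨆ a, ⨆ (_ : P a), limsup (fun i => ((f a i : ℝ) : EReal)) l := by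
  refine iSup₂_le fun b hb => ?_
  rw [← EReal.le_of_forall_lt_iff_le]
  intro z hz
  obtain ⟨z', h1, h2⟩ := EReal.lt_iff_exists_real_btwn.1 hz
  have h3 : z' < z := by exact_mod_cast h2
  obtain ⟨a, ha, h4⟩ := h b hb (z - z') (by linarith)
  have h5 : limsup (fun i => ((f a i : ℝ) : EReal)) l < z' :=
    lt_of_le_of_lt (le_iSup₂ (f := fun a (_ : P a) =>
      limsup (fun i => ((f a i : ℝ) : EReal)) l) a ha) h1
  have h6 := Filter.eventually_lt_of_limsup_lt h5
  refine Filter.limsup_le_of_le (h := ?_)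
  filter_upwards [h6] with i hi
  have h7 : f a i < z' := by exact_mod_cast hi
  have h8 := h4 i
  exact_mod_cast (by linarith : g b i ≤ z)

theorem liminf_transfer {I : Type w} (l : Filter I) {α β : Type*} {P : α → Prop} {Q : β → Prop}
    (f : α → I → ℝ) (g : β → I → ℝ)
    (h : ∀ b, Q b → ∀ c : ℝ, 0 < c → ∃ a, P a ∧ ∀ i, g b i ≤ f a i + c) :
    (⨆ b, ⨆ (_ : Q b), liminf (fun i => ((g b i : ℝ) : EReal)) l) ≤
      ⨆ a, ⨆ (_ : P a), liminf (fun i => ((f a i : ℝ) : EReal)) l := by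
  refine iSup₂_le fun b hb => ?_
  rw [← EReal.le_of_forall_lt_iff_le]
  intro z hz
  obtain ⟨z', h1, h2⟩ := EReal.lt_iff_exists_real_btwn.1 hz
  have h3 : z' < z := by exact_mod_cast h2
  obtain ⟨a, ha, h4⟩ := h b hb (z - z') (by linarith)
  have h5 : liminf (fun i => ((f a i : ℝ) : EReal)) l < z' :=
    lt_of_le_of_lt (le_iSup₂ (f := fun a (_ : P a) =>
      liminf (fun i => ((f a i : ℝ) : EReal)) l) a ha) h1
  have h6 := Filter.frequently_lt_of_liminf_lt (h := h5)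
  refine Filter.liminf_le_of_frequently_le (h6.mono fun i hi => ?_)
  have h7 : f a i < z' := by exact_mod_cast hi
  have h8 := h4 i
  exact_mod_cast (by linarith : g b i ≤ z)

theorem log_aux {x y c : ℝ} {m : ℕ} (hx : 0 < x) (hy : 0 < y) (hm : 0 < m)
    (h : x ≤ y * Real.exp (c * m)) : Real.log x / m ≤ Real.log y / m + c := by
  have hm' : (0 : ℝ) < m := by exact_mod_cast hm
  have h1 : Real.log x ≤ Real.log y + c * m := by
    have := Real.log_le_log hx h
    rwa [Real.log_mul hy.ne' (Real.exp_pos _).ne', Real.log_exp] at this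
  rw [div_add' _ _ _ hm'.ne', div_le_div_iff_of_pos_right hm']
  exact h1

variable {S : Type v} {K : Type u} [CommGroup K] [TopologicalSpace K] [IsTopologicalGroup K]
  [CompactSpace K] [T2Space K]

omit [IsTopologicalGroup K] [CompactSpace K] [T2Space K] in
theorem T_pos (γ : S → (K →ₜ* K)) (F : Finset S) {X : Finset (K →ₜ* Circle)}
    (hX : X.Nonempty) : 0 < (T γ F X).ncard := by
  obtain ⟨χ, hχ⟩ := hX
  have h1 : (T γ F X).Finite := by
    classical
    have : T γ F X ⊆ Set.range fun x : F → X => ∏ s : F, ((x s : K →ₜ* Circle)).comp (γ s) := by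
      rintro _ ⟨x, hx, rfl⟩
      refine ⟨fun s => ⟨x s, hx s s.2⟩, ?_⟩
      simp only
      rw [← Finset.prod_coe_sort F fun s => (x s).comp (γ s)]
    exact (Set.finite_range _).subset this
  rw [Set.ncard_pos h1]
  exact ⟨_, fun _ => χ, fun _ _ => hχ, rfl⟩

theorem coverNumber_pos (γ : S → (K →ₜ* K)) {𝒰 : Set (Set K)} (hU : IsFinOpenCover 𝒰)
    (F : Finset S) : 0 < coverNumber γ 𝒰 F := by
  obtain ⟨c, -, h2⟩ := coverNumber_spec γ hU F
  obtain ⟨j, -⟩ := h2 1
  exact lt_of_le_of_lt (Nat.zero_le _) j.2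

theorem partA' (γ : S → (K →ₜ* K)) {I : Type w} {F : I → Finset S} (hF : ∀ i, (F i).Nonempty)
    (X : Finset (K →ₜ* Circle)) (hX : X.Nonempty) (c : ℝ) (hc : 0 < c) :
    ∃ 𝒰 : Set (Set K), IsFinOpenCover 𝒰 ∧ ∀ i,
      Real.log (T γ (F i) X).ncard / (F i).card ≤
        Real.log (coverNumber γ 𝒰 (F i)) / (F i).card + c := by
  obtain ⟨𝒰, h1, h2⟩ := partA γ hX hc
  refine ⟨𝒰, h1, fun i => log_aux ?_ ?_ (hF i).card_pos (h2 (F i) (hF i))⟩
  · exact_mod_cast T_pos γ (F i) hX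
  · exact_mod_cast coverNumber_pos γ h1 (F i)

theorem partB' (γ : S → (K →ₜ* K)) {I : Type w} {F : I → Finset S} (hF : ∀ i, (F i).Nonempty)
    (𝒰 : Set (Set K)) (hU : IsFinOpenCover 𝒰) (c : ℝ) (hc : 0 < c) :
    ∃ X : Finset (K →ₜ* Circle), X.Nonempty ∧ ∀ i,
      Real.log (coverNumber γ 𝒰 (F i)) / (F i).card ≤
        Real.log (T γ (F i) X).ncard / (F i).card + c := by
  obtain ⟨X, h1, h2⟩ := partB γ hU hc
  refine ⟨X, h1, fun i => log_aux ?_ ?_ (hF i).card_pos (h2 (F i) (hF i))⟩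
  · exact_mod_cast coverNumber_pos γ hU (F i)
  · exact_mod_cast T_pos γ (F i) h1

theorem sup_eq (γ : S → (K →ₜ* K)) {I : Type w} (l : Filter I) {F : I → Finset S}
    (hF : ∀ i, (F i).Nonempty) : hTopSup l F γ = hAlgSup l F γ := by
  apply le_antisymm
  · exact limsup_transfer l
      (fun (X : Finset (K →ₜ* Circle)) i => Real.log (T γ (F i) X).ncard / (F i).card)
      (fun (𝒰 : Set (Set K)) i => Real.log (coverNumber γ 𝒰 (F i)) / (F i).card)
      (partB' γ hF)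
  · exact limsup_transfer l
      (fun (𝒰 : Set (Set K)) i => Real.log (coverNumber γ 𝒰 (F i)) / (F i).card)
      (fun (X : Finset (K →ₜ* Circle)) i => Real.log (T γ (F i) X).ncard / (F i).card)
      (partA' γ hF)

theorem inf_eq (γ : S → (K →ₜ* K)) {I : Type w} (l : Filter I) {F : I → Finset S}
    (hF : ∀ i, (F i).Nonempty) : hTopInf l F γ = hAlgInf l F γ := by
  apply le_antisymm
  · exact liminf_transfer l
      (fun (X : Finset (K →ₜ* Circle)) i => Real.log (T γ (F i) X).ncard / (F i).card)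
      (fun (𝒰 : Set (Set K)) i => Real.log (coverNumber γ 𝒰 (F i)) / (F i).card)
      (partB' γ hF)
  · exact liminf_transfer l
      (fun (𝒰 : Set (Set K)) i => Real.log (coverNumber γ 𝒰 (F i)) / (F i).card)
      (fun (X : Finset (K →ₜ* Circle)) i => Real.log (T γ (F i) X).ncard / (F i).card)
      (partA' γ hF)

/-- The version with limits. -/
theorem lim_eq (γ : S → (K →ₜ* K)) {I : Type w} (l : Filter I) [l.NeBot] {F : I → Finset S}
    (hF : ∀ i, (F i).Nonempty) (a : Set (Set K) → ℝ) (b : Finset (K →ₜ* Circle) → ℝ)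
    (ha : ∀ 𝒰, IsFinOpenCover 𝒰 →
      Tendsto (fun i => Real.log (coverNumber γ 𝒰 (F i)) / (F i).card) l (𝓝 (a 𝒰)))
    (hb : ∀ X : Finset (K →ₜ* Circle), X.Nonempty →
      Tendsto (fun i => Real.log (T γ (F i) X).ncard / (F i).card) l (𝓝 (b X))) :
    (⨆ (𝒰 : Set (Set K)) (_ : IsFinOpenCover 𝒰), (a 𝒰 : EReal)) =
      ⨆ (X : Finset (K →ₜ* Circle)) (_ : X.Nonempty), (b X : EReal) := by
  have h1 := sup_eq γ l hF
  unfold hTopSup hAlgSup at h1
  have h2 : ∀ 𝒰, IsFinOpenCover 𝒰 → limsup (fun i =>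
      ((Real.log (coverNumber γ 𝒰 (F i)) / (F i).card : ℝ) : EReal)) l = a 𝒰 := fun 𝒰 h𝒰 =>
    ((continuous_coe_real_ereal.tendsto _).comp (ha 𝒰 h𝒰)).limsup_eq
  have h3 : ∀ X : Finset (K →ₜ* Circle), X.Nonempty → limsup (fun i =>
      ((Real.log (T γ (F i) X).ncard / (F i).card : ℝ) : EReal)) l = b X := fun X hX =>
    ((continuous_coe_real_ereal.tendsto _).comp (hb X hX)).limsup_eq
  rw [iSup_congr fun 𝒰 => iSup_congr fun h => h2 𝒰 h,
    iSup_congr fun X => iSup_congr fun h => h3 X h] at h1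
  exact h1

end Q195.Bridge
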