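import Pool.Agent.Q195.Bridge.Defs

/-!
# Counting and linear algebra
-/

open Filter Topology

namespace Q195.Bridge

/-- The number of partially defined functions with small domain. -/
theorem count {ι α : Type*} [Fintype ι] [Fintype α] [DecidableEq ι] {δ : ℝ} (h0 : 0 < δ)
    (h1 : δ < 1) :
    (Nat.card {y : ι → Option α // ((Finset.univ.filter fun i => (y i).isSome).card : ℝ) ≤
      δ * Fintype.card ι} : ℝ) ≤
      Real.exp (Fintype.card ι * (δ * Real.log (1 / δ) + δ * Fintype.card α)) := by
  classical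
  set m : ℝ := (Fintype.card ι : ℝ) with hm
  set Y : Finset (ι → Option α) := Finset.univ.filter fun y =>
    ((Finset.univ.filter fun i => (y i).isSome).card : ℝ) ≤ δ * m with hY
  have hcard : Nat.card {y : ι → Option α // ((Finset.univ.filter fun i =>
      (y i).isSome).card : ℝ) ≤ δ * m} = Y.card := by
    rw [Nat.card_eq_fintype_card, Fintype.card_subtype]
  rw [hcard]
  have hprod : ∀ y : ι → Option α, ∏ i, (if (y i).isSome then δ else 1) =
      δ ^ (Finset.univ.filter fun i => (y i).isSome).card := by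
    intro y
    rw [Finset.prod_ite, Finset.prod_const, Finset.prod_const_one, mul_one]
  have hsum : ∑ y : ι → Option α, ∏ i, (if (y i).isSome then δ else 1) =
      (1 + δ * Fintype.card α) ^ Fintype.card ι := by
    have := Finset.prod_univ_sum (ι := ι) (κ := fun _ => Option α) (fun _ => Finset.univ)
      (fun _ (o : Option α) => if o.isSome then δ else 1)
    rw [Fintype.piFinset_univ] at this
    rw [← this, Finset.prod_const, Finset.card_univ]
    congr 1
    rw [Fintype.sum_option]
    simp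
    ring
  have hpow : ∀ y ∈ Y, Real.exp (-(δ * m * Real.log (1 / δ))) ≤
      ∏ i, (if (y i).isSome then δ else 1) := by
    intro y hy
    rw [hprod, ← Real.rpow_natCast, ← Real.exp_log (Real.rpow_pos_of_pos h0 _), Real.log_rpow h0]
    refine Real.exp_le_exp.2 ?_
    have h2 : ((Finset.univ.filter fun i => (y i).isSome).card : ℝ) ≤ δ * m :=
      (Finset.mem_filter.1 hy).2
    rw [one_div, Real.log_inv]
    have h3 : Real.log δ < 0 := Real.log_neg h0 h1
    nlinarith
  have h4 : (Y.card : ℝ) * Real.exp (-(δ * m * Real.log (1 / δ))) ≤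
      (1 + δ * Fintype.card α) ^ Fintype.card ι := by
    rw [← hsum, ← nsmul_eq_mul, ← Finset.sum_const]
    refine (Finset.sum_le_sum hpow).trans ?_
    refine Finset.sum_le_sum_of_subset_of_nonneg (Finset.subset_univ _) fun y _ _ => ?_
    rw [hprod]
    positivity
  have h5 : (1 + δ * Fintype.card α) ^ Fintype.card ι ≤
      Real.exp (m * (δ * Fintype.card α)) := by
    have h6 : 1 + δ * Fintype.card α ≤ Real.exp (δ * Fintype.card α) := by
      linarith [Real.add_one_le_exp (δ * Fintype.card α)]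
    rw [hm, Real.exp_nat_mul]
    exact pow_le_pow_left₀ (by positivity) h6 _
  have h7 : (Y.card : ℝ) ≤ Real.exp (m * (δ * Fintype.card α)) *
      Real.exp (δ * m * Real.log (1 / δ)) := by
    have h8 := h4.trans h5
    rw [Real.exp_neg, ← div_eq_mul_inv, div_le_iff₀ (Real.exp_pos _)] at h8
    exact h8
  refine h7.trans (le_of_eq ?_)
  rw [← Real.exp_add]
  congr 1
  ring

/-- A choice of `δ`. -/
theorem exists_delta (A : ℝ) {c : ℝ} (hc : 0 < c) (hA : 0 ≤ A) :
    ∃ δ : ℝ, 0 < δ ∧ δ < 1 ∧ δ * Real.log (1 / δ) + δ * A ≤ c := by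
  have h1 : Tendsto (fun x : ℝ => Real.log x * x) (𝓝[>] 0) (𝓝 0) := by
    have := (Real.continuous_mul_log.tendsto 0).mono_left (nhdsWithin_le_nhds (s := Set.Ioi 0))
    simpa [mul_comm] using this
  have h2 : Tendsto (fun x : ℝ => -(Real.log x * x) + x * A) (𝓝[>] 0) (𝓝 (-0 + 0 * A)) :=
    h1.neg.add ((tendsto_id.mono_left nhdsWithin_le_nhds).mul_const A)
  rw [neg_zero, zero_mul, zero_add] at h2
  have h3 := h2.eventually_le_const hc
  have h4 : ∀ᶠ x : ℝ in 𝓝[>] 0, x < 1 := by
    filter_upwards [Ioo_mem_nhdsGT (show (0 : ℝ) < 1 by norm_num)] with x hx using hx.2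
  obtain ⟨δ, ⟨d1, d2⟩, d3⟩ := ((h3.and h4).and self_mem_nhdsWithin).exists
  refine ⟨δ, d3, d2, ?_⟩
  rw [one_div, Real.log_inv]
  linarith

theorem exists_rel {ι J V : Type*} [Fintype ι] [Fintype J] [AddCommGroup V] [Module ℂ V]
    (u : J → V) (v : ι → V) (hv : ∀ i, v i ∈ Submodule.span ℂ (Set.range u))
    (h : Fintype.card J < Fintype.card ι) : ∃ g : ι → ℂ, ∑ i, g i • v i = 0 ∧ ∃ i, g i ≠ 0 := by
  classical
  rw [← Fintype.not_linearIndependent_iff]
  intro hli
  have h1 : LinearIndependent ℂ fun i => (⟨v i, hv i⟩ : Submodule.span ℂ (Set.range u)) := by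
    refine LinearIndependent.of_comp (Submodule.span ℂ (Set.range u)).subtype ?_
    exact hli
  have : FiniteDimensional ℂ (Submodule.span ℂ (Set.range u)) :=
    FiniteDimensional.span_of_finite ℂ (Set.finite_range u)
  have h2 := h1.fintype_card_le_finrank
  have h3 := finrank_range_le_card (R := ℂ) u
  unfold Set.finrank at h3
  omega

variable {K : Type*} [CommGroup K] [TopologicalSpace K]

/-- A character as a complex function. -/
noncomputable def e (χ : K →ₜ* Circle) (k : K) : ℂ := ((χ k : Circle) : ℂ)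

theorem e_mul (χ ψ : K →ₜ* Circle) (k : K) : e (χ * ψ) k = e χ k * e ψ k := by
  simp [e]

theorem e_one (k : K) : e (1 : K →ₜ* Circle) k = 1 := by
  simp [e]

theorem norm_e (χ : K →ₜ* Circle) (k : K) : ‖e χ k‖ = 1 := Circle.norm_coe _

theorem e_mul' (χ : K →ₜ* Circle) (k k' : K) : e χ (k * k') = e χ k * e χ k' := by
  simp [e]

theorem e_at_one (χ : K →ₜ* Circle) : e χ 1 = 1 := by
  simp [e]

theorem e_continuous (χ : K →ₜ* Circle) : Continuous (e χ) :=
  continuous_subtype_val.comp χ.continuous_toFun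

theorem e_inv (χ : K →ₜ* Circle) (k : K) : e χ k⁻¹ = (starRingEnd ℂ) (e χ k) := by
  unfold e
  rw [map_inv, Circle.coe_inv_eq_conj]

theorem e_prod {ι : Type*} (s : Finset ι) (z : ι → (K →ₜ* Circle)) (k : K) :
    e (∏ i ∈ s, z i) k = ∏ i ∈ s, e (z i) k := by
  classical
  induction s using Finset.induction_on with
  | empty => simp [e_one]
  | insert i s hi ih => rw [Finset.prod_insert hi, Finset.prod_insert hi, e_mul, ih]

/-- Products of trigonometric polynomials. -/
theorem prod_mem {ι : Type*} (s : Finset ι) (f : ι → K → ℂ) (Z : ι → Set (K →ₜ* Circle))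
    (hf : ∀ i ∈ s, f i ∈ Submodule.span ℂ (e '' Z i)) :
    (∏ i ∈ s, f i) ∈ Submodule.span ℂ
      (e '' {ψ | ∃ z : ι → (K →ₜ* Circle), (∀ i ∈ s, z i ∈ Z i) ∧ ψ = ∏ i ∈ s, z i}) := by
  classical
  induction s using Finset.induction_on with
  | empty =>
    refine Submodule.subset_span ⟨1, ⟨fun _ => 1, by simp, by simp⟩, ?_⟩
    funext k
    simp [e_one]
  | insert i s hi ih =>
    have h1 := hf i (Finset.mem_insert_self i s)
    have h2 := ih fun j hj => hf j (Finset.mem_insert_of_mem hj)
    rw [Finset.prod_insert hi]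
    have h3 := Submodule.mul_mem_mul h1 h2
    rw [Submodule.span_mul_span] at h3
    refine Submodule.span_mono ?_ h3
    rintro _ ⟨_, ⟨χ, hχ, rfl⟩, _, ⟨ψ, ⟨z, hz, rfl⟩, rfl⟩, rfl⟩
    refine ⟨χ * ∏ j ∈ s, z j, ⟨fun j => if j = i then χ else z j, ?_, ?_⟩, ?_⟩
    · intro j hj
      by_cases hji : j = i
      · subst hji; simpa using hχ
      · simp only [hji, if_false]
        exact hz j ((Finset.mem_insert.1 hj).resolve_left hji)
    · rw [Finset.prod_insert hi]
      simp only [if_true]
      congr 1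
      refine Finset.prod_congr rfl fun j hj => ?_
      have : j ≠ i := fun h => hi (h ▸ hj)
      simp [this]
    · funext k
      simp only [Pi.mul_apply]
      exact e_mul _ _ _

end Q195.Bridge
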