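import Pool.Agent.Q195.Bridge.Lower
import Pool.Agent.Helper472.Lat_Chars

/-!
# Topological entropy is at most algebraic entropy
-/

open Filter Topology

namespace Q195.Bridge

variable {S : Type*} {K : Type*} [CommGroup K] [TopologicalSpace K] [IsTopologicalGroup K]
  [CompactSpace K] [T2Space K]

theorem exists_pos_le {α : Type*} (t : Finset α) (r : α → ℝ) (h : ∀ a ∈ t, 0 < r a) :
    ∃ ε > 0, ∀ a ∈ t, ε ≤ r a := by
  classical
  induction t using Finset.induction_on with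
  | empty => exact ⟨1, one_pos, by simp⟩
  | insert a t ha ih =>
    obtain ⟨ε, h1, h2⟩ := ih fun b hb => h b (Finset.mem_insert_of_mem hb)
    refine ⟨min ε (r a), lt_min h1 (h a (Finset.mem_insert_self _ _)), fun b hb => ?_⟩
    rcases Finset.mem_insert.1 hb with rfl | hb
    · exact min_le_right _ _
    · exact (min_le_left _ _).trans (h2 b hb)

theorem sep (k k' : K) (h : k ≠ k') : ∃ χ : K →ₜ* Circle, e χ k ≠ e χ k' := by
  obtain ⟨χ, hχ⟩ := Pool.LatH472.chars (k * k'⁻¹) (fun h' => h (mul_inv_eq_one.1 h'))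
  refine ⟨χ, fun h' => hχ ?_⟩
  have : χ k = χ k' := Circle.ext h'
  rw [map_mul, map_inv, this, mul_inv_cancel]

theorem nbhd (k₀ : K) {U : Set K} (hU : IsOpen U) (hk : k₀ ∈ U) :
    ∃ X : Finset (K →ₜ* Circle), ∃ ε > 0, ∀ k', (∀ χ ∈ X, ‖e χ k' - e χ k₀‖ < ε) → k' ∈ U := by
  classical
  have h1 : ∀ k' : K, ∃ χ : K →ₜ* Circle, k' ∉ U → e χ k' ≠ e χ k₀ := by
    intro k'
    by_cases h : k' ∈ U
    · exact ⟨1, fun h' => absurd h h'⟩
    · obtain ⟨χ, hχ⟩ := sep k' k₀ (fun h' => h (h' ▸ hk))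
      exact ⟨χ, fun _ => hχ⟩
  choose χ hχ using h1
  have hc : IsCompact Uᶜ := hU.isClosed_compl.isCompact
  obtain ⟨t, ht1, ht2⟩ := hc.elim_nhds_subcover
    (fun k' => {k'' | ‖e (χ k') k' - e (χ k') k₀‖ / 2 < ‖e (χ k') k'' - e (χ k') k₀‖}) (by
      intro k' hk'
      refine IsOpen.mem_nhds (isOpen_lt continuous_const
        ((e_continuous _).sub continuous_const).norm) ?_
      have := norm_pos_iff.2 (sub_ne_zero.2 (hχ k' hk'))
      simp only [Set.mem_ofPred_eq]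
      linarith)
  obtain ⟨ε, e1, e2⟩ := exists_pos_le t (fun k' => ‖e (χ k') k' - e (χ k') k₀‖ / 2) (by
    intro k' hk'
    have := norm_pos_iff.2 (sub_ne_zero.2 (hχ k' (ht1 k' hk')))
    linarith)
  refine ⟨t.image χ, ε, e1, fun k' hk' => ?_⟩
  by_contra hcon
  have := ht2 hcon
  simp only [Set.mem_iUnion] at this
  obtain ⟨k'', h2, h3⟩ := this
  have h4 := hk' (χ k'') (Finset.mem_image_of_mem _ h2)
  have h5 := e2 k'' h2
  simp only [Set.mem_ofPred_eq] at h3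
  linarith

theorem lebesgue {𝒰 : Set (Set K)} (hU : IsFinOpenCover 𝒰) :
    ∃ X : Finset (K →ₜ* Circle), ∃ ε > 0, ∀ k, ∃ U ∈ 𝒰, ∀ k',
      (∀ χ ∈ X, ‖e χ k' - e χ k‖ < ε) → k' ∈ U := by
  classical
  have h1 : ∀ k : K, ∃ X : Finset (K →ₜ* Circle), ∃ ε > 0, ∃ U ∈ 𝒰, ∀ k',
      (∀ χ ∈ X, ‖e χ k' - e χ k‖ < ε) → k' ∈ U := by
    intro k
    have : k ∈ ⋃₀ 𝒰 := by rw [hU.cover]; trivial
    obtain ⟨U, hU1, hU2⟩ := this
    obtain ⟨X, ε, h1, h2⟩ := nbhd k (hU.isOpen U hU1) hU2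
    exact ⟨X, ε, h1, U, hU1, h2⟩
  choose X ε hε U hU1 hU2 using h1
  obtain ⟨t, ht⟩ := isCompact_univ.elim_finite_subcover
    (fun k => {k' | ∀ χ ∈ X k, ‖e χ k' - e χ k‖ < ε k / 2}) (by
      intro k
      have : {k' | ∀ χ ∈ X k, ‖e χ k' - e χ k‖ < ε k / 2} =
        ⋂ χ ∈ X k, {k' | ‖e χ k' - e χ k‖ < ε k / 2} := by
        ext k'; simp
      rw [this]
      exact isOpen_biInter_finset fun χ _ =>
        isOpen_lt (((e_continuous χ).sub continuous_const).norm) continuous_const) (by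
    intro k _
    rw [Set.mem_iUnion]
    refine ⟨k, fun χ _ => ?_⟩
    rw [sub_self, norm_zero]
    exact half_pos (hε k))
  obtain ⟨r, r1, r2⟩ := exists_pos_le t (fun k => ε k / 2) (fun k _ => half_pos (hε k))
  refine ⟨t.biUnion X, r, r1, fun k => ?_⟩
  have := ht (Set.mem_univ k)
  simp only [Set.mem_iUnion] at this
  obtain ⟨k₀, hk₀, hk⟩ := this
  refine ⟨U k₀, hU1 k₀, fun k' hk' => hU2 k₀ k' fun χ hχ => ?_⟩
  have h1 : ‖e χ k - e χ k₀‖ < ε k₀ / 2 := hk χ hχ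
  have h2 := hk' χ (Finset.mem_biUnion.2 ⟨k₀, hk₀, hχ⟩)
  have h3 : r ≤ ε k₀ / 2 := r2 k₀ hk₀
  calc ‖e χ k' - e χ k₀‖ = ‖(e χ k' - e χ k) + (e χ k - e χ k₀)‖ := by congr 1; ring
    _ ≤ ‖e χ k' - e χ k‖ + ‖e χ k - e χ k₀‖ := norm_add_le _ _
    _ < ε k₀ := by linarith

omit [IsTopologicalGroup K] [CompactSpace K] [T2Space K] in
theorem comp_mem (φ : K →ₜ* K) {Z : Set (K →ₜ* Circle)} {f : K → ℂ}
    (hf : f ∈ Submodule.span ℂ (e '' Z)) :
    (fun k => f (φ k)) ∈ Submodule.span ℂ (e '' ((fun χ => χ.comp φ) '' Z)) := by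
  have h1 : LinearMap.funLeft ℂ ℂ φ f ∈
      Submodule.map (LinearMap.funLeft ℂ ℂ φ) (Submodule.span ℂ (e '' Z)) :=
    Submodule.mem_map_of_mem hf
  rw [Submodule.map_span] at h1
  refine Submodule.span_mono ?_ h1
  rintro _ ⟨_, ⟨χ, hχ, rfl⟩, rfl⟩
  exact ⟨χ.comp φ, ⟨χ, hχ, rfl⟩, rfl⟩

omit [IsTopologicalGroup K] [CompactSpace K] [T2Space K] in
theorem trans_mem (a : K) {Z : Set (K →ₜ* Circle)} {f : K → ℂ}
    (hf : f ∈ Submodule.span ℂ (e '' Z)) :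
    (fun k => f (k * a)) ∈ Submodule.span ℂ (e '' Z) := by
  have h1 : LinearMap.funLeft ℂ ℂ (fun k : K => k * a) f ∈
      Submodule.map (LinearMap.funLeft ℂ ℂ (fun k : K => k * a)) (Submodule.span ℂ (e '' Z)) :=
    Submodule.mem_map_of_mem hf
  rw [Submodule.map_span] at h1
  refine Submodule.span_le.2 ?_ h1
  rintro _ ⟨_, ⟨χ, hχ, rfl⟩, rfl⟩
  have : LinearMap.funLeft ℂ ℂ (fun k : K => k * a) (e χ) = e χ a • e χ := by
    funext k
    rw [LinearMap.funLeft_apply, e_mul', Pi.smul_apply, smul_eq_mul, mul_comm]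
  rw [this]
  exact Submodule.smul_mem _ _ (Submodule.subset_span ⟨χ, hχ, rfl⟩)

theorem exists_M (p : ℕ) {r : ℝ} (h0 : 0 ≤ r) (h1 : r < 1) :
    ∃ M : ℕ, (2 * M + 1 : ℝ) ^ p * r ^ M ≤ 1 / 2 := by
  have h2 : Tendsto (fun n : ℕ => (n : ℝ) ^ p * r ^ n) atTop (𝓝 0) :=
    tendsto_pow_const_mul_const_pow_of_abs_lt_one p (by rwa [abs_of_nonneg h0])
  have h3 : Tendsto (fun n : ℕ => 3 ^ p * ((n : ℝ) ^ p * r ^ n)) atTop (𝓝 (3 ^ p * 0)) :=
    h2.const_mul _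
  rw [mul_zero] at h3
  obtain ⟨M, h4, h5⟩ := ((h3.eventually_le_const
    (show (0 : ℝ) < 1/2 by norm_num)).and (eventually_ge_atTop 1)).exists
  refine ⟨M, le_trans ?_ h4⟩
  have h6 : (1 : ℝ) ≤ M := by exact_mod_cast h5
  have h7 : (2 * M + 1 : ℝ) ^ p ≤ (3 * M) ^ p :=
    pow_le_pow_left₀ (by positivity) (by linarith) _
  calc (2 * M + 1 : ℝ) ^ p * r ^ M ≤ (3 * M) ^ p * r ^ M :=
        mul_le_mul_of_nonneg_right h7 (by positivity)
    _ = 3 ^ p * ((M : ℝ) ^ p * r ^ M) := by rw [mul_pow]; ring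

/-- The kernel `(2 + χ + χ⁻¹)/4`. -/
noncomputable def H (χ : K →ₜ* Circle) (k : K) : ℂ := (2 + e χ k + e χ⁻¹ k) / 4

omit [IsTopologicalGroup K] [CompactSpace K] [T2Space K] in
theorem e_inv' (χ : K →ₜ* Circle) (k : K) : e χ⁻¹ k = (starRingEnd ℂ) (e χ k) := by
  unfold e
  have : (χ⁻¹ : K →ₜ* Circle) k = (χ k)⁻¹ := rfl
  rw [this, Circle.coe_inv_eq_conj]

omit [IsTopologicalGroup K] [CompactSpace K] [T2Space K] in
theorem H_eq (χ : K →ₜ* Circle) (k : K) : H χ k = ((1 - ‖e χ k - 1‖ ^ 2 / 4 : ℝ) : ℂ) := by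
  have h1 := norm_e χ k
  have h2 : e χ k * (starRingEnd ℂ) (e χ k) = 1 := by
    rw [Complex.mul_conj, Complex.normSq_eq_norm_sq, h1]; simp
  have h3 : ((‖e χ k - 1‖ ^ 2 : ℝ) : ℂ) = (e χ k - 1) * (starRingEnd ℂ) (e χ k - 1) := by
    rw [Complex.mul_conj, Complex.normSq_eq_norm_sq]
  rw [map_sub, map_one] at h3
  push_cast at h3 ⊢
  rw [H, e_inv', h3]
  linear_combination (1 / 4) * h2

omit [IsTopologicalGroup K] [CompactSpace K] [T2Space K] in
theorem H_norm (χ : K →ₜ* Circle) (k : K) : ‖H χ k‖ = 1 - ‖e χ k - 1‖ ^ 2 / 4 := by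
  rw [H_eq, Complex.norm_real, Real.norm_eq_abs, abs_of_nonneg]
  have h1 : ‖e χ k - 1‖ ≤ 2 := by
    refine (norm_sub_le _ _).trans ?_
    rw [norm_e, norm_one]; norm_num
  have h2 := norm_nonneg (e χ k - 1)
  nlinarith

omit [IsTopologicalGroup K] [CompactSpace K] [T2Space K] in
theorem H_le_one (χ : K →ₜ* Circle) (k : K) : ‖H χ k‖ ≤ 1 := by
  rw [H_norm]
  have h2 := sq_nonneg ‖e χ k - 1‖
  linarith

omit [IsTopologicalGroup K] [CompactSpace K] [T2Space K] in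
theorem H_le (χ : K →ₜ* Circle) (k : K) {ε : ℝ} (h0 : 0 < ε) (h : ε ≤ ‖e χ k - 1‖) :
    ‖H χ k‖ ≤ 1 - ε ^ 2 / 4 := by
  rw [H_norm]
  have h2 : ε ^ 2 ≤ ‖e χ k - 1‖ ^ 2 := pow_le_pow_left₀ h0.le h 2
  linarith

omit [IsTopologicalGroup K] [CompactSpace K] [T2Space K] in
theorem H_one (χ : K →ₜ* Circle) : H χ 1 = 1 := by
  rw [H_eq, e_at_one]; simp

omit [IsTopologicalGroup K] [CompactSpace K] [T2Space K] in
theorem H_pow_mem (χ : K →ₜ* Circle) (M : ℕ) :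
    (H χ) ^ M ∈ Submodule.span ℂ (e '' {ψ | ∃ j : ℤ, |j| ≤ M ∧ ψ = χ ^ j}) := by
  induction M with
  | zero =>
    rw [pow_zero]
    refine Submodule.subset_span ⟨1, ⟨0, by simp, by simp⟩, ?_⟩
    funext k
    rw [e_one]; rfl
  | succ M ih =>
    have h1 : H χ ∈ Submodule.span ℂ (e '' {ψ | ∃ j : ℤ, |j| ≤ 1 ∧ ψ = χ ^ j}) := by
      have h2 : H χ = (1 / 2 : ℂ) • e (χ ^ (0 : ℤ)) + (1 / 4 : ℂ) • e (χ ^ (1 : ℤ)) +
          (1 / 4 : ℂ) • e (χ ^ (-1 : ℤ)) := by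
        funext k
        simp only [Pi.add_apply, Pi.smul_apply, smul_eq_mul, zpow_zero, zpow_one, zpow_neg_one,
          e_one, H]
        ring
      rw [h2]
      refine Submodule.add_mem _ (Submodule.add_mem _ ?_ ?_) ?_
      · exact Submodule.smul_mem _ _ (Submodule.subset_span ⟨_, ⟨0, by simp, rfl⟩, rfl⟩)
      · exact Submodule.smul_mem _ _ (Submodule.subset_span ⟨_, ⟨1, by simp, rfl⟩, rfl⟩)
      · exact Submodule.smul_mem _ _ (Submodule.subset_span ⟨_, ⟨-1, by simp, rfl⟩, rfl⟩)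
    rw [pow_succ]
    have h3 := Submodule.mul_mem_mul ih h1
    rw [Submodule.span_mul_span] at h3
    refine Submodule.span_mono ?_ h3
    rintro _ ⟨_, ⟨_, ⟨i, hi, rfl⟩, rfl⟩, _, ⟨_, ⟨j, hj, rfl⟩, rfl⟩, rfl⟩
    refine ⟨χ ^ (i + j), ⟨i + j, ?_, rfl⟩, ?_⟩
    · push_cast
      exact (abs_add_le _ _).trans (add_le_add hi hj)
    · funext k
      rw [zpow_add]
      exact e_mul _ _ _

/-- Separated sets are small. -/
theorem separated (γ : S → (K →ₜ* K)) (X : Finset (K →ₜ* Circle)) {ε : ℝ} (hε : 0 < ε)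
    (hε1 : ε ≤ 1) {δ : ℝ} (hδ : 0 < δ) : ∃ Y : Finset (K →ₜ* Circle), Y.Nonempty ∧
      ∀ F : Finset S, F.Nonempty → ∀ E : Finset K, (∀ k ∈ E, ∀ k' ∈ E, k ≠ k' →
        ∃ R ⊆ F, δ * F.card < R.card ∧ ∀ s ∈ R, ∃ χ ∈ X, ε ≤ ‖e χ (γ s (k * k'⁻¹)) - 1‖) →
      E.card ≤ (T γ F Y).ncard := by
  classical
  set q : ℝ := 1 - ε ^ 2 / 4 with hq
  have hq0 : 0 < q := by
    rw [hq]; nlinarith
  have hq1 : q < 1 := by
    rw [hq]; nlinarith [pow_pos hε 2]
  set r : ℝ := q ^ δ with hr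
  have hr0 : 0 < r := Real.rpow_pos_of_pos hq0 _
  have hr1 : r < 1 := Real.rpow_lt_one hq0.le hq1 hδ
  obtain ⟨M, hM⟩ := exists_M X.card hr0.le hr1
  set Y : Finset (K →ₜ* Circle) := Finset.univ.image
    fun j : X → Fin (2 * M + 1) => ∏ χ : X, (χ : K →ₜ* Circle) ^ ((j χ : ℤ) - M) with hY
  have hYc : (Y.card : ℝ) ≤ (2 * M + 1 : ℝ) ^ X.card := by
    have h1 : Y.card ≤ Fintype.card (X → Fin (2 * M + 1)) := Finset.card_image_le.trans (by simp)
    rw [Fintype.card_fun, Fintype.card_coe, Fintype.card_fin] at h1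
    exact_mod_cast h1
  have hYne : Y.Nonempty := Finset.univ_nonempty.image _
  refine ⟨Y, hYne, fun F hF E hE => ?_⟩
  set G₀ : K → ℂ := ∏ χ ∈ X, (H χ) ^ M with hG₀
  have hG₀m : G₀ ∈ Submodule.span ℂ (e '' (Y : Set (K →ₜ* Circle))) := by
    have h1 := prod_mem X (fun χ => (H χ) ^ M) (fun χ => {ψ | ∃ j : ℤ, |j| ≤ M ∧ ψ = χ ^ j})
      (fun χ _ => H_pow_mem χ M)
    refine Submodule.span_mono (Set.image_mono ?_) h1
    rintro _ ⟨z, hz, rfl⟩
    rw [hY, Finset.coe_image]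
    have h2 : ∀ χ : X, ∃ j : Fin (2 * M + 1), z χ = (χ : K →ₜ* Circle) ^ ((j : ℤ) - M) := by
      intro χ
      obtain ⟨j, hj1, hj2⟩ := hz χ χ.2
      rw [abs_le] at hj1
      refine ⟨⟨(j + M).toNat, by omega⟩, ?_⟩
      rw [hj2]
      congr 1
      simp only
      omega
    choose j hj using h2
    refine ⟨j, by simp, ?_⟩
    rw [← Finset.prod_coe_sort X z]
    exact Finset.prod_congr rfl fun χ _ => (hj χ).symm
  have hG₀n : ∀ k, ‖G₀ k‖ ≤ 1 := by
    intro k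
    rw [hG₀, Finset.prod_apply, norm_prod]
    refine Finset.prod_le_one (fun _ _ => norm_nonneg _) fun χ _ => ?_
    rw [Pi.pow_apply, norm_pow]
    exact pow_le_one₀ (norm_nonneg _) (H_le_one χ k)
  have hG₀q : ∀ k, (∃ χ ∈ X, ε ≤ ‖e χ k - 1‖) → ‖G₀ k‖ ≤ q ^ M := by
    rintro k ⟨χ, hχ, h1⟩
    rw [hG₀, Finset.prod_apply, norm_prod, ← Finset.mul_prod_erase X _ hχ]
    have h2 : ‖(H χ ^ M) k‖ ≤ q ^ M := by
      rw [Pi.pow_apply, norm_pow]
      exact pow_le_pow_left₀ (norm_nonneg _) (H_le χ k hε h1) _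
    have h3 : ∏ χ ∈ X.erase χ, ‖(H χ ^ M) k‖ ≤ 1 := by
      refine Finset.prod_le_one (fun _ _ => norm_nonneg _) fun χ _ => ?_
      rw [Pi.pow_apply, norm_pow]
      exact pow_le_one₀ (norm_nonneg _) (H_le_one χ k)
    calc ‖(H χ ^ M) k‖ * ∏ χ ∈ X.erase χ, ‖(H χ ^ M) k‖ ≤ q ^ M * 1 :=
          mul_le_mul h2 h3 (Finset.prod_nonneg fun _ _ => norm_nonneg _) (by positivity)
      _ = q ^ M := mul_one _
  have hG₀1 : G₀ 1 = 1 := by
    rw [hG₀, Finset.prod_apply]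
    refine Finset.prod_eq_one fun χ _ => ?_
    rw [Pi.pow_apply, H_one, one_pow]
  clear_value G₀ Y
  set g : K → ℂ := ∏ s ∈ F, fun k => G₀ (γ s k) with hg
  have hgm : g ∈ Submodule.span ℂ (e '' T γ F Y) := by
    have h0 : ∀ s ∈ F, (fun k => G₀ (γ s k)) ∈ Submodule.span ℂ
        (e '' ((fun χ => χ.comp (γ s)) '' (Y : Set (K →ₜ* Circle)))) :=
      fun s _ => comp_mem (γ s) hG₀m
    have h00 := prod_mem F (fun s k => G₀ (γ s k))
      (fun s => (fun χ => χ.comp (γ s)) '' (Y : Set (K →ₜ* Circle)))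
    have h1 := h00 h0
    clear h00
    refine Submodule.span_mono (Set.image_mono ?_) h1
    rintro _ ⟨z, hz, rfl⟩
    have h2 : ∀ s, ∃ x : K →ₜ* Circle, s ∈ F → x ∈ Y ∧ x.comp (γ s) = z s := by
      intro s
      by_cases hs : s ∈ F
      · obtain ⟨x, hx1, hx2⟩ := hz s hs
        exact ⟨x, fun _ => ⟨hx1, hx2⟩⟩
      · exact ⟨1, fun h => absurd h hs⟩
    choose x hx using h2
    exact ⟨x, fun s hs => (hx s hs).1, Finset.prod_congr rfl fun s hs => (hx s hs).2.symm⟩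
  have hgk : ∀ k, g k = ∏ s ∈ F, G₀ (γ s k) := fun k => by
    rw [hg, Finset.prod_apply]
  clear_value g
  have hg1 : g 1 = 1 := by
    rw [hgk]
    refine Finset.prod_eq_one fun s _ => ?_
    rw [map_one, hG₀1]
  set m := F.card with hm
  have hgb : ∀ b, (∃ R ⊆ F, δ * m < R.card ∧ ∀ s ∈ R, ∃ χ ∈ X, ε ≤ ‖e χ (γ s b) - 1‖) →
      ‖g b‖ ≤ (r ^ M) ^ m := by
    rintro b ⟨R, hR, hRc, hRs⟩
    rw [hgk, norm_prod, ← Finset.prod_sdiff hR]
    have h1 : ∏ s ∈ F \ R, ‖G₀ (γ s b)‖ ≤ 1 :=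
      Finset.prod_le_one (fun _ _ => norm_nonneg _) fun s _ => hG₀n _
    have h2 : ∏ s ∈ R, ‖G₀ (γ s b)‖ ≤ (q ^ M) ^ R.card := by
      rw [← Finset.prod_const]
      exact Finset.prod_le_prod (fun _ _ => norm_nonneg _) fun s hs => hG₀q _ (hRs s hs)
    have h3 : (q ^ M) ^ R.card ≤ (r ^ M) ^ m := by
      rw [← pow_mul, ← pow_mul, mul_comm M, mul_comm M, pow_mul, pow_mul]
      refine pow_le_pow_left₀ (by positivity) ?_ _
      rw [hr, ← Real.rpow_natCast q, ← Real.rpow_natCast (q ^ δ), ← Real.rpow_mul hq0.le]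
      exact Real.rpow_le_rpow_of_exponent_ge hq0 hq1.le hRc.le
    calc (∏ s ∈ F \ R, ‖G₀ (γ s b)‖) * ∏ s ∈ R, ‖G₀ (γ s b)‖ ≤ 1 * (q ^ M) ^ R.card :=
          mul_le_mul h1 h2 (Finset.prod_nonneg fun _ _ => norm_nonneg _) zero_le_one
      _ ≤ (r ^ M) ^ m := by rw [one_mul]; exact h3
  -- the set `T`
  have hTfin : (T γ F Y).Finite := by
    rw [T_eq γ F hYne]; exact Set.finite_range _
  have hTc : ((T γ F Y).ncard : ℝ) ≤ (Y.card : ℝ) ^ m := by
    have h1 : (T γ F Y).ncard ≤ Y.card ^ m := by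
      rw [T_eq γ F hYne, ← Set.image_univ, ← Finset.coe_univ, ← Finset.coe_image,
        Set.ncard_coe_finset]
      refine Finset.card_image_le.trans ?_
      rw [Finset.card_univ, Fintype.card_fun, Fintype.card_coe, Fintype.card_coe]
    exact_mod_cast h1
  have hTb : ((T γ F Y).ncard : ℝ) * (r ^ M) ^ m ≤ 1 / 2 := by
    have h1 : ((T γ F Y).ncard : ℝ) * (r ^ M) ^ m ≤ ((2 * M + 1 : ℝ) ^ X.card * r ^ M) ^ m := by
      rw [mul_pow]
      exact mul_le_mul_of_nonneg_right (hTc.trans (pow_le_pow_left₀ (by positivity) hYc _))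
        (by positivity)
    refine h1.trans ((pow_le_pow_left₀ (by positivity) hM _).trans ?_)
    have hm1 : 1 ≤ m := hF.card_pos
    calc (1 / 2 : ℝ) ^ m ≤ (1 / 2) ^ 1 :=
          pow_le_pow_of_le_one (by norm_num) (by norm_num) hm1
      _ = 1 / 2 := pow_one _
  by_contra hcon
  push Not at hcon
  obtain ⟨E', hE'1, hE'2⟩ := Finset.exists_subset_card_eq (n := (T γ F Y).ncard + 1) hcon
  have : Fintype (T γ F Y) := hTfin.fintype
  have hcT : Fintype.card (T γ F Y) = (T γ F Y).ncard := by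
    rw [← Nat.card_eq_fintype_card]; rfl
  obtain ⟨a, ha1, k₁, ha2⟩ := exists_rel (ι := E') (fun ψ : T γ F Y => e ψ.1)
    (fun k' : E' => fun k : K => g (k * (k' : K)⁻¹)) (fun k' => by
      have := trans_mem (k' : K)⁻¹ hgm
      refine Submodule.span_mono ?_ this
      rintro _ ⟨ψ, hψ, rfl⟩
      exact ⟨⟨ψ, hψ⟩, rfl⟩) (by
      rw [hcT, Fintype.card_coe, hE'2]; exact Nat.lt_succ_self _)
  obtain ⟨k₀, -, hk₀⟩ := Finset.exists_max_image Finset.univ (fun k : E' => ‖a k‖)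
    ⟨k₁, Finset.mem_univ _⟩
  have hpos : 0 < ‖a k₀‖ := lt_of_lt_of_le (norm_pos_iff.2 ha2) (hk₀ k₁ (Finset.mem_univ _))
  have h1 := congrFun ha1 (k₀ : K)
  simp only [Finset.sum_apply, Pi.smul_apply, smul_eq_mul, Pi.zero_apply] at h1
  rw [← Finset.add_sum_erase Finset.univ _ (Finset.mem_univ k₀), mul_inv_cancel, hg1, mul_one] at h1
  have h2 : a k₀ = -∑ x ∈ Finset.univ.erase k₀, a x * g ((k₀ : K) * (x : K)⁻¹) := by
    linear_combination h1
  have h3 : ‖a k₀‖ ≤ ‖a k₀‖ / 2 := by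
    calc ‖a k₀‖ = ‖∑ x ∈ Finset.univ.erase k₀, a x * g ((k₀ : K) * (x : K)⁻¹)‖ := by
          conv_lhs => rw [h2]
          rw [norm_neg]
      _ ≤ ∑ x ∈ Finset.univ.erase k₀, ‖a x * g ((k₀ : K) * (x : K)⁻¹)‖ := norm_sum_le _ _
      _ ≤ ∑ x ∈ Finset.univ.erase k₀, ‖a k₀‖ * (r ^ M) ^ m := by
          refine Finset.sum_le_sum fun x hx => ?_
          rw [norm_mul]
          refine mul_le_mul (hk₀ x (Finset.mem_univ _)) ?_ (norm_nonneg _) (norm_nonneg _)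
          refine hgb _ (hE _ (hE'1 k₀.2) _ (hE'1 x.2) ?_)
          intro h
          exact (Finset.mem_erase.1 hx).1 (Subtype.ext h.symm)
      _ = ‖a k₀‖ * (((T γ F Y).ncard : ℝ) * (r ^ M) ^ m) := by
          rw [Finset.sum_const, Finset.card_erase_of_mem (Finset.mem_univ _), Finset.card_univ,
            Fintype.card_coe, hE'2, Nat.add_sub_cancel, nsmul_eq_mul]
          ring
      _ ≤ ‖a k₀‖ * (1 / 2) := mul_le_mul_of_nonneg_left hTb hpos.le
      _ = ‖a k₀‖ / 2 := by ring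
  linarith

/-- Second half. -/
theorem partB (γ : S → (K →ₜ* K)) {𝒰 : Set (Set K)} (hU : IsFinOpenCover 𝒰)
    {c : ℝ} (hc : 0 < c) : ∃ Y : Finset (K →ₜ* Circle), Y.Nonempty ∧ ∀ F : Finset S, F.Nonempty →
      (coverNumber γ 𝒰 F : ℝ) ≤ (T γ F Y).ncard * Real.exp (c * F.card) := by
  classical
  have : Fintype 𝒰 := hU.finite.fintype
  obtain ⟨δ, d0, d1, d2⟩ := exists_delta (A := (Fintype.card 𝒰 : ℝ)) hc (Nat.cast_nonneg _)
  obtain ⟨X, ε₀, he0, hX⟩ := lebesgue hU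
  set ε := min ε₀ 1 with hε
  have hε0 : 0 < ε := lt_min he0 one_pos
  obtain ⟨Y, hY1, hY2⟩ := separated γ X hε0 (min_le_right _ _) d0
  refine ⟨Y, hY1, fun F hF => ?_⟩
  set m := F.card with hm
  have hX' : ∀ k, ∃ U : 𝒰, ∀ k', (∀ χ ∈ X, ‖e χ k' - e χ k‖ < ε) → k' ∈ (U : Set K) := by
    intro k
    obtain ⟨U, h1, h2⟩ := hX k
    exact ⟨⟨U, h1⟩, fun k' hk' => h2 k' fun χ hχ => (hk' χ hχ).trans_le (min_le_left _ _)⟩
  choose U₀ hU₀ using hX'
  -- separated sets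
  let Sep : Finset K → Prop := fun E => ∀ k ∈ E, ∀ k' ∈ E, k ≠ k' →
    ∃ R ⊆ F, δ * F.card < R.card ∧ ∀ s ∈ R, ∃ χ ∈ X, ε ≤ ‖e χ (γ s (k * k'⁻¹)) - 1‖
  have hbdd : BddAbove {n : ℕ | ∃ E : Finset K, Sep E ∧ E.card = n} := by
    refine ⟨(T γ F Y).ncard, ?_⟩
    rintro _ ⟨E, hE, rfl⟩
    exact hY2 F hF E hE
  obtain ⟨E, hE1, hE2⟩ := Nat.sSup_mem
    (s := {n : ℕ | ∃ E : Finset K, Sep E ∧ E.card = n}) ⟨0, ∅, by simp [Sep], rfl⟩ hbdd
  have hmax : ∀ E', Sep E' → E'.card ≤ E.card := by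
    intro E' h
    rw [hE2]
    exact le_csSup hbdd ⟨E', h, rfl⟩
  have hcov : ∀ k, ∃ k' ∈ E, ((F.filter fun s => ∃ χ ∈ X,
      ε ≤ ‖e χ (γ s (k * k'⁻¹)) - 1‖).card : ℝ) ≤ δ * F.card := by
    intro k
    by_contra hcon
    push Not at hcon
    have hk : k ∉ E := by
      intro h
      have h1 := hcon k h
      rw [mul_inv_cancel] at h1
      have h2 : (F.filter fun s => ∃ χ ∈ X, ε ≤ ‖e χ (γ s (1 : K)) - 1‖) = ∅ := by
        rw [Finset.filter_eq_empty_iff]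
        rintro s _ ⟨χ, _, h3⟩
        rw [map_one, e_at_one, sub_self, norm_zero] at h3
        linarith
      rw [h2, Finset.card_empty, Nat.cast_zero] at h1
      have : (0 : ℝ) ≤ δ * F.card := by positivity
      linarith
    have hsep : Sep (insert k E) := by
      intro k₁ hk₁ k₂ hk₂ hne
      rcases Finset.mem_insert.1 hk₁ with rfl | h1 <;> rcases Finset.mem_insert.1 hk₂ with rfl | h2
      · exact absurd rfl hne
      · exact ⟨_, Finset.filter_subset _ _, hcon k₂ h2, fun s hs => (Finset.mem_filter.1 hs).2⟩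
      · refine ⟨_, Finset.filter_subset _ _, hcon k₁ h1, fun s hs => ?_⟩
        obtain ⟨χ, hχ, h3⟩ := (Finset.mem_filter.1 hs).2
        refine ⟨χ, hχ, h3.trans (le_of_eq ?_)⟩
        have h4 : γ s (k₁ * k₂⁻¹) = (γ s (k₂ * k₁⁻¹))⁻¹ := by
          rw [← map_inv, mul_inv_rev, inv_inv]
        rw [h4, e_inv]
        conv_rhs => rw [← RCLike.norm_conj, map_sub, map_one, Complex.conj_conj]
      · exact hE1 k₁ h1 k₂ h2 hne
    have := hmax _ hsep
    rw [Finset.card_insert_of_notMem hk] at this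
    omega
  have hFc : Fintype.card F = m := Fintype.card_coe F
  set YY := {y : F → Option 𝒰 // ((Finset.univ.filter fun i => (y i).isSome).card : ℝ) ≤
    δ * Fintype.card F} with hYY
  have hcount := count (ι := F) (α := 𝒰) d0 d1
  have : Fintype YY := Fintype.ofFinite YY
  have hYc : (Fintype.card YY : ℝ) ≤ Real.exp (c * m) := by
    rw [← Nat.card_eq_fintype_card]
    refine hcount.trans (Real.exp_le_exp.2 ?_)
    rw [hFc, mul_comm c]
    exact mul_le_mul_of_nonneg_left d2 (Nat.cast_nonneg _)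
  have hle : coverNumber γ 𝒰 F ≤ Fintype.card (E × YY) := by
    refine coverNumber_le (fun (j : E × YY) s => if hs : s ∈ F then
      (((j.2.1 ⟨s, hs⟩).getD (U₀ (γ s j.1)) : 𝒰) : Set K) else ∅) ?_ ?_
    · intro j s hs
      simp only [hs, dif_pos]
      exact Subtype.coe_prop _
    · intro k
      obtain ⟨k', hk', hR⟩ := hcov k
      have hUk : ∀ s : F, ∃ U : 𝒰, γ s k ∈ (U : Set K) := by
        intro s
        have : γ s k ∈ ⋃₀ 𝒰 := by rw [hU.cover]; trivial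
        obtain ⟨U, hU1, hU2⟩ := this
        exact ⟨⟨U, hU1⟩, hU2⟩
      choose V hV using hUk
      let y : F → Option 𝒰 := fun s => if (∃ χ ∈ X, ε ≤ ‖e χ (γ s (k * k'⁻¹)) - 1‖) then
        some (V s) else none
      have hy : ((Finset.univ.filter fun i => (y i).isSome).card : ℝ) ≤ δ * Fintype.card F := by
        rw [hFc]
        refine le_trans ?_ hR
        have h1 : (Finset.univ.filter fun i => (y i).isSome).card ≤
          (F.filter fun s => ∃ χ ∈ X, ε ≤ ‖e χ (γ s (k * k'⁻¹)) - 1‖).card := by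
          refine Finset.card_le_card_of_injOn (fun s : F => (s : S)) ?_
            (fun a _ b _ h => Subtype.ext h)
          intro s hs
          have h2 : (y s).isSome = true := by simpa using hs
          have h3 : ∃ χ ∈ X, ε ≤ ‖e χ (γ s (k * k'⁻¹)) - 1‖ := by
            by_contra h4
            simp only [y, h4, if_false] at h2
            simp at h2
          simp only [Finset.coe_filter, Set.mem_ofPred_eq]
          exact ⟨s.2, h3⟩
        exact_mod_cast h1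
      refine ⟨(⟨k', hk'⟩, ⟨y, hy⟩), fun s hs => ?_⟩
      simp only [hs, dif_pos]
      by_cases h1 : ∃ χ ∈ X, ε ≤ ‖e χ (γ s (k * k'⁻¹)) - 1‖
      · simp only [y, h1, if_true, Option.getD_some]
        exact hV ⟨s, hs⟩
      · simp only [y, h1, if_false, Option.getD_none]
        refine hU₀ _ _ fun χ hχ => ?_
        push Not at h1
        have h2 := h1 χ hχ
        have h3 : e χ (γ s k) = e χ (γ s (k * k'⁻¹)) * e χ (γ s k') := by
          rw [← e_mul', ← map_mul, inv_mul_cancel_right]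
        have h4 : e χ (γ s k) - e χ (γ s k') = (e χ (γ s (k * k'⁻¹)) - 1) * e χ (γ s k') := by
          rw [h3]; ring
        rw [h4, norm_mul, norm_e, mul_one]
        exact h2
  have hEc : E.card ≤ (T γ F Y).ncard := hY2 F hF E hE1
  have hle' : (coverNumber γ 𝒰 F : ℝ) ≤ (E.card : ℝ) * Fintype.card YY := by
    rw [Fintype.card_prod, Fintype.card_coe] at hle
    exact_mod_cast hle
  refine hle'.trans ?_
  exact mul_le_mul (by exact_mod_cast hEc) hYc (Nat.cast_nonneg _) (Nat.cast_nonneg _)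

end Q195.Bridge
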